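import Mathlib
import Pool.Agent.H24CT.Main
import Pool.Agent.Y1.CT.CodimNum

/-!
# The standard conjecture of Hodge type for the products of all varieties with abelian varieties of
almost all slope types of all CM fields

Let `K i` (`i` in a finite set) be CM fields of degree `2 g i`. Nothing is assumed about their Galois
groups. They are pairwise independent: for `i ≠ k` and all complex embeddings `φ` of `K i` and `ψ` of
`K k` some automorphism of `ℂ` is the identity on `φ (K i)` and the complex conjugation on `ψ (K k)`
(this is no condition if there is only one field). We fix an isomorphism `ν` of the algebraic closure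
of `ℚ_p` with `ℂ`; it defines a `p`-adic valuation of `ℂ`, with the value one at `p`. Let `M i` be a
function with nonzero integral values, all of which divide `n i`, on the complex embeddings of
`K i`, invariant under complex conjugation. A CM type `Φ i` of `K i`, `M i` and a real number `κ ≠ 0`
prescribe the slopes `(a + κ M) / 2` (at the embeddings in `Φ i`) and `(a - κ M) / 2` (outside
of `Φ i`) of a Weil number for `p ^ a` in `K i` (`HasType`). The case `M = 1`, `κ = a` is the case of
ordinary abelian varieties; the assumption on `M` says that `a / 2` is not a slope.

There are `2 ^ (∑ i, g i)` families of CM types `Φ i` of the fields `K i`. A family is exceptional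
(`exceptionalFamilies ν K M`) if the following statement (`Holds`) is false for it. Let `π i` be Weil
numbers for `q = p ^ a` that generate the fields `K i` and have the slope types `Φ i`, `M i`, and let
`f i` be monic polynomials whose complex roots are conjugates of `π i` (`IsPolyOf`), for instance the
characteristic polynomials of Frobenius of the abelian varieties in the isogeny classes of the `π i`
over the field with `q` elements. Let `A` be an abelian variety over an algebraic closure of a finite
field which over the field with `Q = q ^ s` elements is isogenous to a product of powers of abelian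
varieties coming from the field with `q` elements, with characteristic polynomials `f i`, and let `Z`
be **any** smooth projective variety such that the eigenvalues of Frobenius on the cohomology of `Z`
and their conjugates are unrelated to the fields `K i` (`UnrelatedTo`): for instance, if powers of them
lie in a field linearly disjoint from the normal closures of the `K i`, or if they have small degrees.

Then

* each divisor `C` on `A × Z` is homologically equivalent to a sum `D × Z + A × B` of divisors from
  the factors;
* **for every divisor `C` with hard Lefschetz, `D` and `B` satisfy hard Lefschetz, and if their degrees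
  are positive (as for ample divisors) the standard conjecture of Hodge type is true for `(A × Z, C)`
  if and only if it is true for `(A, D)` and for `(Z, B)`.**

(For the abelian varieties `A` the conjecture is known for almost all slope types.) Nothing is assumed
on the algebraic cycles on `Z`: neither the conjecture of Lefschetz type, nor the Tate conjecture, nor
the semisimplicity of Frobenius, nor the coincidence of homological and numerical equivalence. So the
conjecture is true for instance for `A × Z`, for all polarizations, if it is true for `A` and `Z` is any
surface or threefold unrelated to the `K i`; the conjecture of Hodge type is not known to be stable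
under products.

The theorem bounds the number of the exceptional families: it is at most
`2 ^ (∑ i, g i) * ∑ i, C * (n i) ^ 2 * rate (K i) (g i) (q i)`, with an absolute constant `C`. Here
`q i` is any prime factor of `g i` (or `q i = 1`), and `rate K g q` is `(1 + log (2 g)) ^ 16` times
the smaller of the numbers

* `W (K) / √g`, where (second part of the theorem, `WeightEstimate`) `W (K) ≤ N ^ 2 * D ^ (1 / 4)`;
  `N` is the number of the CM subfields of `K` (with `K`) and `D` is the largest degree of a CM
  subfield of `K` that is normal over `ℚ` with a nonabelian Galois group (`D = 1` if there are none);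
* `√g / q`.

The counting part, and the relations with the eigenvalues of `Z`, are those of the starting result
`MP_0273e8_ag.AllCMTypesTimes` on the conjecture of Lefschetz type `A`.
-/

set_option autoImplicit false

namespace Pool.Agent.Results.MP_361a6f_ag.AllCMTypesTimes

open NumberField Module Pool.Agent.H204R3.CM Pool.Agent.H977R3.CM Pool.Agent.TH170
  Pool.Agent.Y1.KN Pool.Agent.Y1.CT Pool.Agent.Y1.SC Pool.Agent.H24CT

/-- The reduction of the conjecture of Hodge type for `A × Z` to the ones for `A` and for `Z` holds for
all abelian varieties `A` whose Frobenius eigenvalues are powers of conjugates of Weil numbers with the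
slope types `Φ i`, `M i`, and all `Z` unrelated to the fields `K i`. -/
def Holds {p : ℕ} [Fact p.Prime] (ν : PadicAlgCl p ≃+* ℂ) {I : Type} (K : I → Type)
    [∀ i, Field (K i)] [∀ i, NumberField (K i)] [∀ i, IsCMField (K i)]
    (M : ∀ i, (K i →+* ℂ) → ℤ) (Φ : ∀ i, Set (K i →+* ℂ)) : Prop :=
  ForAllTypes ν K M (HodgeTimes K) Φ

/-- The exceptional families of CM types. -/
def exceptionalFamilies {p : ℕ} [Fact p.Prime] (ν : PadicAlgCl p ≃+* ℂ) {I : Type} (K : I → Type)
    [∀ i, Field (K i)] [∀ i, NumberField (K i)] [∀ i, IsCMField (K i)]
    (M : ∀ i, (K i →+* ℂ) → ℤ) : Set (∀ i, Set (K i →+* ℂ)) :=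
  {Φ | (∀ i, IsCMType (Φ i)) ∧ ¬ Holds ν K M Φ}

/-- **The conjecture of Hodge type for `A × Z` is equivalent to the conjectures for `A` and `Z`, for
the abelian varieties `A` of almost all slope types of all CM fields and all unrelated varieties
`Z`.** -/
theorem result :
    (∃ C : ℝ, 0 ≤ C ∧ ∀ (p : ℕ) [Fact p.Prime] (ν : PadicAlgCl p ≃+* ℂ) (I : Type) [Fintype I]
      (K : I → Type) [∀ i, Field (K i)] [∀ i, NumberField (K i)] [∀ i, IsCMField (K i)]
      (M : ∀ i, (K i →+* ℂ) → ℤ) (n g q : I → ℕ), PairwiseIndep K →
      (∀ i φ, M i (ComplexEmbedding.conjugate φ) = M i φ) → (∀ i, n i ≠ 0) →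
      (∀ i φ, M i φ ∣ (n i : ℤ)) → (∀ i, finrank ℚ (K i) = 2 * g i) →
      (∀ i, q i ∣ g i ∧ (q i = 1 ∨ (q i).Prime)) →
      ((exceptionalFamilies ν K M).ncard : ℝ) ≤
        2 ^ (∑ i, g i) * ∑ i, C * (n i : ℝ) ^ 2 * rate (K i) (g i) (q i)) ∧
    WeightEstimate := by
  obtain ⟨C, hC0, hC⟩ := ncard_of_unrel
  refine ⟨⟨C, hC0, ?_⟩, weight_estimate_holds⟩
  intro p _ ν I _ K _ _ _ M n g q hind hM hn hMn hg hq
  exact hC p ν I K M n g q hind hM hn hMn hg hq _ fun Q f hQ hR => hodgeTimes hQ hR

end Pool.Agent.Results.MP_361a6f_ag.AllCMTypesTimes
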