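import Pool.Agent.H24IF.Fin

/-!
# The standard conjecture of Hodge type for the products of an arbitrary variety with members of an
independent family

Let `F₀` be a finitely generated field with the separable closure `k`, let `Γ` be its Galois group,
and `W` the `ℓ`-adic cohomology of the varieties over `k` with coefficients in an algebraic closure of
`ℚ_ℓ` (a field isomorphic to `ℂ`). The theorem is proved for an abstract Weil cohomology theory with
an action of a group. A class is *semi-invariant* if a subgroup of finite index multiplies it by a
character.

Let `V_i`, `i ∈ ι`, be any family of representations of `Γ` such that the representations `End V_i`
are semisimple, and which are pairwise independent (`Family`): for `i ≠ j` every equivariant linear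
map `End V_i → End V_j` has its values in the span of the semi-invariant vectors. For instance over
a function field of characteristic `p` the representations `H^1(E_i)` for any family of not
isotrivial elliptic curves which are pairwise not isogenous over `k`.

Let `P_a` be varieties with semisimple cohomology which is generated by `V_(i_a)`, for instance
arbitrary powers of the elliptic curve, such that the semi-invariant classes of `P_a` are combinations
of algebraic classes and homological and numerical equivalence are the same on `P_a` (`Fac`), with
divisors `D_a` of positive degree whose classes satisfy the hard Lefschetz theorem.

**Theorem.** Let `Z` be an **arbitrary** smooth projective variety over `F₀` with a divisor of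
positive degree whose class satisfies the hard Lefschetz theorem; nothing else is assumed. There is a
finite set `E = E(Z)` of indices, with at most `(b - b') / 2` elements, where `b` is the sum of the
Betti numbers of `Z` and `b' ≥ 1` is the dimension of the span of the semi-invariant classes, such
that for all products `Y = P_1 × ... × P_n × Z'` with pairwise different indices `i_a ∉ E`, and all
varieties `Z'` generated by the cohomology of `Z` (for instance `Z' = Z` or the powers of `Z`):

* **the standard conjecture of Hodge type is true for `Y` and the sum of the divisors if and only
  if it is true for `Z'` and for all `P_a`** (for the powers of elliptic curves without complex
  multiplication it is known);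
* **the same for every divisor `C` on `Y` with the hard Lefschetz theorem**: it is homologically
  equivalent to a sum of divisors on the factors, which satisfy the hard Lefschetz theorem, and if
  they have positive degrees, the conjecture is true for `(Y, C)` if and only if it is true for `Z'`
  and the `P_a` and these divisors.

Nothing is assumed on the algebraic cycles on `Z`: no Tate conjecture, no conjecture of Lefschetz type,
no coincidence of homological and numerical equivalence.
-/

set_option autoImplicit false

universe u

namespace Pool.Agent.Results.MP_361a6f_ag.IndependentFamilies

open Pool.Agent.H914 Pool.Agent.TH125.Gal Pool.Agent.N179.GR.S Pool.Agent.N179.SA
  Pool.Agent.H24IF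

/-- **Independent families of varieties, an arbitrary variety, and the conjecture of Hodge type.** -/
theorem result {k : Type u} [Field k] {𝒱 : VarClass k} {ops : CycleOps 𝒱}
    {W : WeilCohomology.{u, 0} ops} (hK : Nonempty (W.K ≃+* ℂ)) {Γ : Type} [Group Γ] {ι : Type}
    {V : ι → GRep W.K Γ} (hV : Family V) : ∃ E : GRep W.K Γ → Set ι, Exceptions V E :=
  final_hodge_splits hK hV

end Pool.Agent.Results.MP_361a6f_ag.IndependentFamilies
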