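import Pool.Agent.H24HS.Main

/-!
# MP_361a6f_ag: the conjecture of Hodge type is tested on the varieties which generate the classes

Let `(S, D)` and `(T i, D i)`, for `i` in a finite set, be smooth projective varieties with divisors
for which the hard Lefschetz theorem and the Lefschetz standard conjecture hold, and let `(U, B)` be
a variety with a divisor for which the hard Lefschetz theorem holds. Suppose that the classes of the
algebraic cycles on `S × U` are linear combinations, with coefficients in the coefficient field of
the cohomology, of external products `a × b` of arbitrary classes `b` of `U` and of classes `a` of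
`S` which are sums of images of (arbitrary) classes of the varieties `T i` under algebraic
correspondences.

Then the standard conjecture of Hodge type for the products `S × T i`, `T i × T j` and `T i × U`
implies the standard conjecture of Hodge type for `S × U`. (The divisors on the products are the
sums of the pull-backs.)

Nothing is assumed on the algebraic cycles on `U`: no conjecture of Lefschetz type, no coincidence
of homological and numerical equivalence. The proof constructs a Casimir operator of the algebraic
correspondences between `S` and the `T i`, a self-adjoint algebraic operator `P` on the cohomology of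
`S` for which the form `⟨P x, x⟩` on the algebraic classes of `S × U` is a sum, with positive
coefficients, of the forms of the classes on `T i × U`, and which is invertible, with a
characteristic polynomial with positive roots only, on the classes which come from the `T i`.
-/

set_option autoImplicit false

open CategoryTheory AlgebraicGeometry

universe u v w

namespace Pool.Agent.Results.MP_361a6f_ag.TestVarieties

open Pool.Agent.H914 VarClass Obj WeilCohomology Pool.Agent.H281R3.HT Pool.Agent.H24HS

/-- **Transitivity of the standard conjecture of Hodge type.** -/
theorem result {k : Type u} [Field k] {𝒱 : VarClass k} {ops : CycleOps 𝒱}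
    (W : WeilCohomology.{u, v} ops) {ι : Type w} [Finite ι] (S U : Polarized 𝒱)
    (T : ι → Polarized 𝒱)
    (hSD : S.X.IsCyc 1 S.D) (hSL : HardLefschetz W S.X S.D) (hSB : LefschetzB W S.X S.D)
    (hTD : ∀ i, (T i).X.IsCyc 1 (T i).D) (hTL : ∀ i, HardLefschetz W (T i).X (T i).D)
    (hTB : ∀ i, LefschetzB W (T i).X (T i).D)
    (hUD : U.X.IsCyc 1 U.D) (hUL : HardLefschetz W U.X U.D)
    (hgen : ComesFrom W (fun i => (T i).X) S.X U.X)
    (hST : ∀ i, HodgeType W (S.prod ops (T i)).X (S.prod ops (T i)).D)
    (hTT : ∀ i j, HodgeType W ((T i).prod ops (T j)).X ((T i).prod ops (T j)).D)
    (hTU : ∀ i, HodgeType W ((T i).prod ops U).X ((T i).prod ops U).D) :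
    HodgeType W (S.prod ops U).X (S.prod ops U).D :=
  hodge_of_tests hSD hSL hSB hTD hTL hTB hUD hUL hST hTT hTU hgen

end Pool.Agent.Results.MP_361a6f_ag.TestVarieties
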